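import Pool.Agent.W2helper44.CP.Stm

/-!
# Project CP (helper44): elementary facts about the product `mm` of `3 × 3` matrices
-/

set_option autoImplicit false

open Set Filter Topology
open scoped ContDiff

noncomputable section

namespace Pool.Agent.W2helper44.CP.H15

open Pool.Agent.W2helper44.CP

/-- the ring of complex `3 × 3` matrices -/
abbrev Mx := Matrix (Fin 3) (Fin 3) ℂ

/-- `A` as an element of the ring of matrices -/
def toM (A : Mat3) : Mx := Matrix.of A

lemma toM_inj {A B : Mat3} (h : toM A = toM B) : A = B := h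

lemma toM_mm (A B : Mat3) : toM (mm A B) = toM A * toM B := by
  ext i j
  simp [toM, mm, Matrix.mul_apply]

lemma toM_one : toM one3 = 1 := by
  ext i j
  simp [toM, one3, Matrix.one_apply]

lemma toM_star (A : Mat3) : toM (star3 A) = (toM A).conjTranspose := by
  ext i j
  simp [toM, star3, Matrix.conjTranspose_apply]

lemma toM_add (A B : Mat3) : toM (A + B) = toM A + toM B := rfl

lemma toM_sub (A B : Mat3) : toM (A - B) = toM A - toM B := rfl

lemma toM_smul (c : ℂ) (A : Mat3) : toM (c • A) = c • toM A := rfl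

lemma mm_assoc (A B C : Mat3) : mm (mm A B) C = mm A (mm B C) := by
  apply toM_inj
  rw [toM_mm, toM_mm, toM_mm, toM_mm, mul_assoc]

lemma mm_one (A : Mat3) : mm A one3 = A := by
  apply toM_inj
  rw [toM_mm, toM_one, mul_one]

lemma one_mm (A : Mat3) : mm one3 A = A := by
  apply toM_inj
  rw [toM_mm, toM_one, one_mul]

lemma sub_mm (A B C : Mat3) : mm (A - B) C = mm A C - mm B C := by
  apply toM_inj
  rw [toM_mm, toM_sub, toM_sub, toM_mm, toM_mm, sub_mul]

lemma mm_sub (A B C : Mat3) : mm A (B - C) = mm A B - mm A C := by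
  apply toM_inj
  rw [toM_mm, toM_sub, toM_sub, toM_mm, toM_mm, mul_sub]

lemma star3_mm (A B : Mat3) : star3 (mm A B) = mm (star3 B) (star3 A) := by
  apply toM_inj
  rw [toM_star, toM_mm, toM_mm, toM_star, toM_star, Matrix.conjTranspose_mul]

lemma star3_star3 (A : Mat3) : star3 (star3 A) = A := by
  funext i j
  simp [star3]

lemma norm_entry (A : Mat3) (i j : Fin 3) : ‖A i j‖ ≤ ‖A‖ :=
  (norm_le_pi_norm (A i) j).trans (norm_le_pi_norm A i)

lemma norm_le_of {A : Mat3} {c : ℝ} (hc : 0 ≤ c) (h : ∀ i j, ‖A i j‖ ≤ c) : ‖A‖ ≤ c :=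
  (pi_norm_le_iff_of_nonneg hc).2 fun i => (pi_norm_le_iff_of_nonneg hc).2 fun j => h i j

lemma norm_mm (A B : Mat3) : ‖mm A B‖ ≤ 3 * ‖A‖ * ‖B‖ := by
  refine norm_le_of (by positivity) fun i j => ?_
  have h : ‖∑ k, A i k * B k j‖ ≤ ∑ k : Fin 3, ‖A‖ * ‖B‖ := by
    refine norm_sum_le_of_le _ fun k _ => ?_
    rw [norm_mul]
    exact mul_le_mul (norm_entry A i k) (norm_entry B k j) (norm_nonneg _) (norm_nonneg _)
  refine h.trans (le_of_eq ?_)
  rw [Finset.sum_const, Finset.card_univ, Fintype.card_fin, nsmul_eq_mul]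
  push_cast
  ring

lemma norm_star3 (A : Mat3) : ‖star3 A‖ ≤ ‖A‖ := by
  refine norm_le_of (norm_nonneg _) fun i j => ?_
  rw [star3, norm_star]
  exact norm_entry A j i

lemma contDiff_entry {n : ℕ∞ω} (i j : Fin 3) : ContDiff ℝ n fun A : Mat3 => A i j :=
  contDiff_apply_apply ℝ ℂ i j

lemma contDiff_mm {E : Type} [NormedAddCommGroup E] [NormedSpace ℝ E] {n : ℕ∞ω} {f g : E → Mat3}
    (hf : ContDiff ℝ n f) (hg : ContDiff ℝ n g) : ContDiff ℝ n fun x => mm (f x) (g x) := by
  rw [contDiff_pi]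
  intro i
  rw [contDiff_pi]
  intro j
  exact ContDiff.sum fun k _ => ((contDiff_entry i k).comp hf).mul ((contDiff_entry k j).comp hg)

lemma contDiff_star3 {E : Type} [NormedAddCommGroup E] [NormedSpace ℝ E] {n : ℕ∞ω} {f : E → Mat3}
    (hf : ContDiff ℝ n f) : ContDiff ℝ n fun x => star3 (f x) := by
  rw [contDiff_pi]
  intro i
  rw [contDiff_pi]
  intro j
  exact (Complex.conjCLE.contDiff (n := n)).comp ((contDiff_entry j i).comp hf)

lemma norm_one3 : ‖one3‖ ≤ 1 := by
  refine norm_le_of zero_le_one fun i j => ?_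
  unfold one3
  split_ifs <;> simp

end Pool.Agent.W2helper44.CP.H15
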