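import Pool.Agent.W2helper15.CP.Mat

/-!
# Project CP (helper44), piece RET1: a smooth inverse square root of `3 × 3` matrices near `1`

The inverse function theorem for `(Y, X) ↦ (Y, X ^ 2 Y)` at `(1, 1)`.  If `H` commutes with `Y` and
`X ^ 2 Y = 1` then `D = X H - H X` satisfies `X D + D X = 0`, so `D = 0` when `X` is near `1`; the same
for `D = X - X*`, where `X ^ 2 = (X*) ^ 2`.
-/

set_option autoImplicit false

open Set Filter Topology
open scoped ContDiff

noncomputable section

namespace Pool.Agent.W2helper44.CP.H15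

open Pool.Agent.W2helper44.CP

lemma toM_neg (A : Mat3) : toM (-A) = -toM A := rfl

/-- if `X D + D W = 0` with `X`, `W` near `1` then `D = 0` -/
lemma eq_zero_of_near {X W D : Mat3} (hX : ‖X - one3‖ ≤ 1 / 10) (hW : ‖W - one3‖ ≤ 1 / 10)
    (h : mm X D + mm D W = 0) : D = 0 := by
  have h1 : D + D = -(mm (X - one3) D + mm D (W - one3)) := by
    rw [sub_mm, mm_sub, one_mm, mm_one]
    have : mm X D = -mm D W := eq_neg_of_add_eq_zero_left h
    rw [this]
    abel
  have h2 : ‖D + D‖ = 2 * ‖D‖ := by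
    rw [← two_smul ℝ D, norm_smul]
    norm_num
  have h3 : ‖D + D‖ ≤ 3 * ‖X - one3‖ * ‖D‖ + 3 * ‖D‖ * ‖W - one3‖ := by
    rw [h1, norm_neg]
    exact (norm_add_le _ _).trans (add_le_add (norm_mm _ _) (norm_mm _ _))
  have h4 : 3 * ‖X - one3‖ * ‖D‖ ≤ 3 * (1 / 10) * ‖D‖ := by
    have := norm_nonneg D
    gcongr
  have h5 : 3 * ‖D‖ * ‖W - one3‖ ≤ 3 * ‖D‖ * (1 / 10) := by
    have := norm_nonneg D
    gcongr
  have h6 : ‖D‖ ≤ 0 := by linarith
  exact norm_le_zero_iff.1 h6

lemma comm_of {X Y H : Mat3} (hX : ‖X - one3‖ ≤ 1 / 10) (hXY : mm (mm X X) Y = one3)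
    (hH : mm H Y = mm Y H) : mm H X = mm X H := by
  have e1 : toM X * toM X * toM Y = 1 := by rw [← toM_mm, ← toM_mm, hXY, toM_one]
  have e2 : toM Y * (toM X * toM X) = 1 := mul_eq_one_comm.1 e1
  have e3 : toM H * toM Y = toM Y * toM H := by rw [← toM_mm, ← toM_mm, hH]
  have e4 : toM H * (toM X * toM X) = (toM X * toM X) * toM H := by
    calc toM H * (toM X * toM X)
        = (toM X * toM X * toM Y) * (toM H * (toM X * toM X)) := by rw [e1, one_mul]
      _ = (toM X * toM X) * ((toM Y * toM H) * (toM X * toM X)) := by noncomm_ring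
      _ = (toM X * toM X) * ((toM H * toM Y) * (toM X * toM X)) := by rw [e3]
      _ = (toM X * toM X) * toM H * (toM Y * (toM X * toM X)) := by noncomm_ring
      _ = (toM X * toM X) * toM H := by rw [e2, mul_one]
  have h0 : mm X (mm X H - mm H X) + mm (mm X H - mm H X) X = 0 := by
    apply toM_inj
    rw [toM_add, toM_mm, toM_mm, toM_sub, toM_mm, toM_mm]
    have : toM X * (toM X * toM H - toM H * toM X) + (toM X * toM H - toM H * toM X) * toM X
        = (toM X * toM X) * toM H - toM H * (toM X * toM X) := by noncomm_ring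
    rw [this, e4, sub_self]
    rfl
  have := eq_zero_of_near hX hX h0
  exact (sub_eq_zero.1 this).symm

lemma star_of {X Y : Mat3} (hX : ‖X - one3‖ ≤ 1 / 10) (hXY : mm (mm X X) Y = one3)
    (hY : star3 Y = Y) : star3 X = X := by
  have s1 : star3 one3 = one3 := by
    funext i j
    simp only [star3, one3]
    by_cases h : i = j
    · subst h; simp
    · simp [h, Ne.symm h]
  have hW : ‖star3 X - one3‖ ≤ 1 / 10 := by
    have : star3 X - one3 = star3 (X - one3) := by
      conv_lhs => rw [← s1]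
      funext i j
      simp [star3, star_sub]
    rw [this]
    exact (norm_star3 _).trans hX
  have e1 : toM X * toM X * toM Y = 1 := by rw [← toM_mm, ← toM_mm, hXY, toM_one]
  have e2 : toM Y * (toM X * toM X) = 1 := mul_eq_one_comm.1 e1
  have hs := congrArg star3 hXY
  rw [star3_mm, star3_mm, s1, hY] at hs
  have e3 : toM Y * (toM (star3 X) * toM (star3 X)) = 1 := by
    rw [← toM_mm, ← toM_mm, hs, toM_one]
  have e4 : toM X * toM X = toM (star3 X) * toM (star3 X) := by
    calc toM X * toM X = (toM X * toM X) * (toM Y * (toM (star3 X) * toM (star3 X))) := by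
          rw [e3, mul_one]
      _ = (toM X * toM X * toM Y) * (toM (star3 X) * toM (star3 X)) := by noncomm_ring
      _ = toM (star3 X) * toM (star3 X) := by rw [e1, one_mul]
  have h0 : mm X (X - star3 X) + mm (X - star3 X) (star3 X) = 0 := by
    apply toM_inj
    rw [toM_add, toM_mm, toM_mm, toM_sub]
    have : toM X * (toM X - toM (star3 X)) + (toM X - toM (star3 X)) * toM (star3 X)
        = toM X * toM X - toM (star3 X) * toM (star3 X) := by noncomm_ring
    rw [this, e4, sub_self]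
    rfl
  exact (sub_eq_zero.1 (eq_zero_of_near hX hW h0)).symm

lemma bil_mm : IsBoundedBilinearMap ℝ (fun p : Mat3 × Mat3 => mm p.1 p.2) where
  add_left x₁ x₂ y := by
    funext i j
    simp [mm, add_mul, Finset.sum_add_distrib]
  smul_left c x y := by
    funext i j
    simp only [mm, Pi.smul_apply, Finset.smul_sum, Complex.real_smul]
    exact Finset.sum_congr rfl fun k _ => by ring
  add_right x y₁ y₂ := by
    funext i j
    simp [mm, mul_add, Finset.sum_add_distrib]
  smul_right c x y := by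
    funext i j
    simp only [mm, Pi.smul_apply, Finset.smul_sum, Complex.real_smul]
    exact Finset.sum_congr rfl fun k _ => by ring
  bound := ⟨3, by norm_num, fun x y => norm_mm x y⟩

/-- the map `(Y, X) ↦ (Y, X ^ 2 Y)` -/
def Gm (p : Mat3 × Mat3) : Mat3 × Mat3 := (p.1, mm (mm p.2 p.2) p.1)

lemma contDiff_Gm {n : ℕ∞ω} : ContDiff ℝ n Gm :=
  contDiff_fst.prodMk (contDiff_mm (contDiff_mm contDiff_snd contDiff_snd) contDiff_fst)

lemma hasFDerivAt_Gm : ∃ e : (Mat3 × Mat3) ≃L[ℝ] (Mat3 × Mat3),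
    HasFDerivAt Gm (e : (Mat3 × Mat3) →L[ℝ] (Mat3 × Mat3)) (one3, one3) := by
  have d1 := (bil_mm.hasFDerivAt (one3, one3)).comp (𝕜 := ℝ) (one3, one3)
    ((hasFDerivAt_snd (𝕜 := ℝ) (p := ((one3, one3) : Mat3 × Mat3))).prodMk
      (hasFDerivAt_snd (𝕜 := ℝ) (p := ((one3, one3) : Mat3 × Mat3))))
  have d2 := (bil_mm.hasFDerivAt (mm one3 one3, one3)).comp (𝕜 := ℝ) (one3, one3)
    (d1.prodMk (hasFDerivAt_fst (𝕜 := ℝ) (p := ((one3, one3) : Mat3 × Mat3))))
  have d3 := (hasFDerivAt_fst (𝕜 := ℝ) (p := ((one3, one3) : Mat3 × Mat3))).prodMk d2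
  refine ⟨ContinuousLinearEquiv.equivOfInverse
    ((ContinuousLinearMap.fst ℝ Mat3 Mat3).prod (ContinuousLinearMap.fst ℝ Mat3 Mat3 +
      (2 : ℝ) • ContinuousLinearMap.snd ℝ Mat3 Mat3))
    ((ContinuousLinearMap.fst ℝ Mat3 Mat3).prod ((1 / 2 : ℝ) •
      (ContinuousLinearMap.snd ℝ Mat3 Mat3 - ContinuousLinearMap.fst ℝ Mat3 Mat3))) ?_ ?_, ?_⟩
  · rintro ⟨a, b⟩
    simp [smul_smul]
  · rintro ⟨a, b⟩
    simp [smul_smul]
  · refine d3.congr_fderiv (ContinuousLinearMap.ext ?_)
    rintro ⟨a, b⟩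
    simp only [ContinuousLinearMap.prod_apply, ContinuousLinearMap.comp_apply,
      ContinuousLinearMap.coe_fst', ContinuousLinearMap.coe_snd',
      IsBoundedBilinearMap.deriv_apply, mm_one, one_mm]
    change _ = (a, a + (2 : ℝ) • b)
    rw [two_smul]

end H15

open H15 in
/-- Piece RET1. -/
theorem p_RET1 : P_RET1 := by
  obtain ⟨e, he⟩ := hasFDerivAt_Gm
  have hc : ContDiffAt ℝ ω Gm (one3, one3) := contDiff_Gm.contDiffAt
  have hG1 : Gm (one3, one3) = (one3, one3) := by
    rw [Gm, mm_one, mm_one]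
  set g := hc.localInverse he (by simp) with hg
  have g1 : g (one3, one3) = (one3, one3) := by
    have := hc.localInverse_apply_image he (by simp)
    rwa [hG1] at this
  have g2 : ∀ᶠ q in 𝓝 ((one3, one3) : Mat3 × Mat3), Gm (g q) = q := by
    have := (hc.hasStrictFDerivAt' he (by simp)).eventually_right_inverse
    rwa [hG1] at this
  have g3 : ContDiffAt ℝ ω g (one3, one3) := by
    have := hc.to_localInverse he (by simp)
    rwa [hG1] at this
  have g4 : ∀ᶠ q in 𝓝 ((one3, one3) : Mat3 × Mat3), ContDiffAt ℝ ω g q :=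
    g3.eventually (by simp)
  have hcont : Continuous fun Y : Mat3 => (Y, one3) := by fun_prop
  have ht : Tendsto (fun Y : Mat3 => (Y, one3)) (𝓝 one3) (𝓝 (one3, one3)) :=
    hcont.tendsto one3
  have g5 : ∀ᶠ Y in 𝓝 one3, ‖(g (Y, one3)).2 - one3‖ < 1 / 10 := by
    have h1 : Tendsto (fun Y : Mat3 => (g (Y, one3)).2) (𝓝 one3) (𝓝 one3) := by
      have h2 := (continuous_snd.tendsto _).comp (g3.continuousAt.tendsto.comp ht)
      rw [g1] at h2
      exact h2
    have h3 := Metric.tendsto_nhds.1 h1 (1 / 10) (by norm_num)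
    filter_upwards [h3] with Y hY
    rwa [← dist_eq_norm]
  have hall := (ht.eventually g2).and ((ht.eventually g4).and g5)
  obtain ⟨τ, hτ, hball⟩ := Metric.eventually_nhds_iff.1 hall
  -- the cut-off
  let χ : ContDiffBump (one3 : Mat3) := ⟨τ / 3, τ / 2, by positivity, by linarith⟩
  let S₀ : Mat3 → Mat3 := fun Y => (g (Y, one3)).2
  refine ⟨fun Y => one3 + χ Y • (S₀ Y - one3), ?_, ?_, τ / 3, by positivity, ?_⟩
  · rw [contDiff_iff_contDiffAt]
    intro Y
    by_cases hY : dist Y one3 < τ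
    · have h1 : ContDiffAt ℝ ω g (Y, one3) := (hball hY).2.1
      have h2 : ContDiffAt ℝ ω S₀ Y := by
        have h3 : ContDiffAt ℝ ω (fun Y : Mat3 => (Y, (one3 : Mat3))) Y :=
          contDiffAt_id.prodMk contDiffAt_const
        exact (contDiff_snd.contDiffAt (x := g (Y, one3))).comp Y (h1.comp Y h3)
      have h4 : ContDiffAt ℝ ∞ S₀ Y := h2.of_le (by simp)
      exact contDiffAt_const.add (χ.contDiffAt.smul (h4.sub contDiffAt_const))
    · have h1 : Y ∉ tsupport χ := by
        rw [χ.tsupport_eq, Metric.mem_closedBall]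
        intro h
        apply hY
        have : χ.rOut = τ / 2 := rfl
        linarith
      rw [notMem_tsupport_iff_eventuallyEq] at h1
      have h2 : (fun Y => one3 + χ Y • (S₀ Y - one3)) =ᶠ[𝓝 Y] fun _ => one3 := by
        filter_upwards [h1] with Z hZ
        rw [hZ]
        simp
      exact contDiffAt_const.congr_of_eventuallyEq h2
  · have : S₀ one3 = one3 := by
      change (g (one3, one3)).2 = one3
      rw [g1]
    simp [this]
  · intro Y hY
    have hd : dist Y one3 ≤ τ / 3 := by rwa [dist_eq_norm]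
    have hlt : dist Y one3 < τ := by linarith
    obtain ⟨h1, -, h3⟩ := hball hlt
    have hχ : χ Y = 1 := χ.one_of_mem_closedBall hd
    have hS : (one3 + χ Y • (S₀ Y - one3)) = S₀ Y := by
      rw [hχ, one_smul]
      abel
    have hfst : (g (Y, one3)).1 = Y := congrArg Prod.fst h1
    have hsnd : mm (mm (S₀ Y) (S₀ Y)) Y = one3 := by
      have := congrArg Prod.snd h1
      change mm (mm (g (Y, one3)).2 (g (Y, one3)).2) (g (Y, one3)).1 = one3 at this
      rwa [hfst] at this
    change mm (mm (one3 + χ Y • (S₀ Y - one3)) (one3 + χ Y • (S₀ Y - one3))) Y = one3 ∧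
      (∀ H : Mat3, mm H Y = mm Y H → mm H (one3 + χ Y • (S₀ Y - one3)) =
        mm (one3 + χ Y • (S₀ Y - one3)) H) ∧
      (star3 Y = Y → star3 (one3 + χ Y • (S₀ Y - one3)) = one3 + χ Y • (S₀ Y - one3))
    rw [hS]
    exact ⟨hsnd, fun H hH => comm_of h3.le hsnd hH, fun hs => star_of h3.le hsnd hs⟩

end Pool.Agent.W2helper44.CP
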