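import Pool.Agent.W2helper15.CP.Mat

/-!
# Project CP (helper44), piece RET2: `CP²` has a smooth retraction
-/

set_option autoImplicit false

open Set Filter Topology
open scoped ContDiff

noncomputable section

namespace Pool.Agent.W2helper44.CP.H15

open Pool.Agent.W2helper44.CP

lemma mem_CP2 (P : Mat3) : P ∈ CP2 ↔ star3 P = P ∧ mm P P = P ∧ ∑ i, P i i = 1 := by
  constructor
  · rintro ⟨h1, h2, h3⟩
    refine ⟨?_, ?_, h3⟩
    · funext i j
      exact (h1 j i).symm
    · funext i j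
      exact h2 i j
  · rintro ⟨h1, h2, h3⟩
    refine ⟨fun i j => ?_, fun i j => congrFun (congrFun h2 i) j, h3⟩
    exact (congrFun (congrFun h1 j) i).symm

lemma norm_CP2 {P : Mat3} (hP : P ∈ CP2) : ‖P‖ ≤ 1 := by
  obtain ⟨h1, h2, h3⟩ := hP
  have e : ∀ i k, P i k * P k i = ((‖P i k‖ ^ 2 : ℝ) : ℂ) := by
    intro i k
    have h := Complex.mul_conj' (P i k)
    rw [starRingEnd_apply] at h
    rw [h1 i k, h]
    push_cast
    rfl
  have hs : ((∑ i, ∑ k, ‖P i k‖ ^ 2 : ℝ) : ℂ) = ((1 : ℝ) : ℂ) := by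
    push_cast
    rw [← h3]
    refine Finset.sum_congr rfl fun i _ => ?_
    rw [← h2 i i]
    refine Finset.sum_congr rfl fun k _ => ?_
    rw [e]
    push_cast
    rfl
  have hs' : ∑ i, ∑ k, ‖P i k‖ ^ 2 = (1 : ℝ) := Complex.ofReal_injective hs
  refine norm_le_of zero_le_one fun i j => ?_
  have h4 : ‖P i j‖ ^ 2 ≤ 1 := by
    rw [← hs']
    calc ‖P i j‖ ^ 2 ≤ ∑ k, ‖P i k‖ ^ 2 :=
          Finset.single_le_sum (f := fun k => ‖P i k‖ ^ 2) (fun _ _ => by positivity)
            (Finset.mem_univ j)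
      _ ≤ ∑ i, ∑ k, ‖P i k‖ ^ 2 :=
          Finset.single_le_sum (f := fun i => ∑ k, ‖P i k‖ ^ 2)
            (fun _ _ => Finset.sum_nonneg fun _ _ => by positivity) (Finset.mem_univ i)
  nlinarith [norm_nonneg (P i j)]

lemma trace_nat {e : Mat3} (he : mm e e = e) : ∃ n : ℕ, ∑ i, e i i = (n : ℂ) := by
  have h : IsIdempotentElem (Matrix.toLin' (toM e)) := by
    change Matrix.toLin' (toM e) ∘ₗ Matrix.toLin' (toM e) = Matrix.toLin' (toM e)
    rw [← Matrix.toLin'_mul, ← toM_mm, he]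
  refine ⟨Module.finrank ℂ (LinearMap.range (Matrix.toLin' (toM e))), ?_⟩
  have h2 := (LinearMap.IsIdempotentElem.isProj_range _ h).trace
  rw [Matrix.trace_toLin'_eq] at h2
  exact h2

/-- `2 H - 1` for the Hermitian part `H` -/
def Zf (A : Mat3) : Mat3 := A + star3 A - one3

lemma contDiff_Zf {n : ℕ∞ω} : ContDiff ℝ n Zf :=
  (contDiff_id.add (contDiff_star3 contDiff_id)).sub contDiff_const

lemma star3_Zf (A : Mat3) : star3 (Zf A) = Zf A := by
  funext i j
  simp only [star3, Zf, Pi.add_apply, Pi.sub_apply, one3, star_add, star_sub, star_star]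
  by_cases h : i = j
  · subst h
    simp only [if_true, star_one]
    ring
  · simp only [h, Ne.symm h, if_false, star_zero]
    ring

lemma Zf_sub (A P : Mat3) : ‖Zf A - Zf P‖ ≤ 2 * ‖A - P‖ := by
  have h : Zf A - Zf P = (A - P) + star3 (A - P) := by
    funext i j
    simp only [Zf, star3, Pi.add_apply, Pi.sub_apply, star_sub]
    ring
  rw [h]
  refine (norm_add_le _ _).trans ?_
  linarith [norm_star3 (A - P)]

lemma Zf_CP2 {P : Mat3} (hP : P ∈ CP2) : mm (Zf P) (Zf P) = one3 ∧ ‖Zf P‖ ≤ 3 := by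
  obtain ⟨h1, h2, h3⟩ := (mem_CP2 P).1 hP
  have hz : Zf P = P + P - one3 := by rw [Zf, h1]
  constructor
  · rw [hz]
    apply toM_inj
    have h4 : toM P * toM P = toM P := by rw [← toM_mm, h2]
    rw [toM_mm, toM_sub, toM_add, toM_one]
    noncomm_ring
    rw [h4]
    simp
  · rw [hz]
    refine (norm_sub_le _ _).trans ?_
    have := norm_add_le P P
    linarith [norm_CP2 hP, norm_one3]

/-- the retraction -/
def rho (S : Mat3 → Mat3) (A : Mat3) : Mat3 :=
  (1 / 2 : ℂ) • (one3 + mm (Zf A) (S (mm (Zf A) (Zf A))))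

lemma contDiff_rho {S : Mat3 → Mat3} (hS : ContDiff ℝ ∞ S) : ContDiff ℝ ∞ (rho S) := by
  have h : ContDiff ℝ ∞ fun A : Mat3 => one3 + mm (Zf A) (S (mm (Zf A) (Zf A))) :=
    contDiff_const.add (contDiff_mm contDiff_Zf (hS.comp (contDiff_mm contDiff_Zf contDiff_Zf)))
  exact h.const_smul (1 / 2 : ℂ)

theorem p_RET2' : P_RET1 → P_RET := by
  rintro ⟨S, hS, hS1, τ, hτ, hSY⟩
  refine ⟨rho S, contDiff_rho hS, ?_, ?_⟩
  · -- a neighbourhood
    have hc : Tendsto S (𝓝 one3) (𝓝 one3) := by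
      have := hS.continuous.tendsto one3
      rwa [hS1] at this
    obtain ⟨τ', hτ', hτS⟩ : ∃ τ' : ℝ, 0 < τ' ∧ ∀ Y : Mat3, ‖Y - one3‖ < τ' →
        ‖S Y - one3‖ < 1 / 100 := by
      obtain ⟨δ, hδ, h⟩ := Metric.tendsto_nhds_nhds.1 hc (1 / 100) (by norm_num)
      exact ⟨δ, hδ, fun Y hY => by simpa [dist_eq_norm] using h (by simpa [dist_eq_norm] using hY)⟩
    refine ⟨min (min (τ / 50) (τ' / 50)) (1 / 100), by positivity, ?_⟩
    intro P hP A hA
    have hA1 : ‖A - P‖ ≤ 1 / 100 := hA.trans (min_le_right _ _)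
    have hA2 : ‖A - P‖ ≤ τ / 50 := hA.trans ((min_le_left _ _).trans (min_le_left _ _))
    have hA3 : ‖A - P‖ ≤ τ' / 50 := hA.trans ((min_le_left _ _).trans (min_le_right _ _))
    obtain ⟨hZP, hZ3⟩ := Zf_CP2 hP
    have hd := Zf_sub A P
    set Z := Zf A with hZ
    set Y := mm Z Z with hY
    have hZn : ‖Z‖ ≤ 4 := by
      have : Z = Zf P + (Z - Zf P) := by abel
      rw [this]
      refine (norm_add_le _ _).trans ?_
      linarith
    have hY1 : ‖Y - one3‖ ≤ 42 * ‖A - P‖ := by
      have e : Y - one3 = mm (Z - Zf P) Z + mm (Zf P) (Z - Zf P) := by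
        rw [sub_mm, mm_sub, hZP, ← hY]
        abel
      rw [e]
      refine (norm_add_le _ _).trans ?_
      have h1 := norm_mm (Z - Zf P) Z
      have h2 := norm_mm (Zf P) (Z - Zf P)
      have h3 : 3 * ‖Z - Zf P‖ * ‖Z‖ ≤ 3 * (2 * ‖A - P‖) * 4 := by
        have := norm_nonneg (Z - Zf P)
        have := norm_nonneg Z
        have := norm_nonneg (A - P)
        gcongr
      have h4 : 3 * ‖Zf P‖ * ‖Z - Zf P‖ ≤ 3 * 3 * (2 * ‖A - P‖) := by
        have := norm_nonneg (Z - Zf P)
        have := norm_nonneg (A - P)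
        gcongr
      linarith
    have hn : 0 ≤ ‖A - P‖ := norm_nonneg _
    have hYτ : ‖Y - one3‖ ≤ τ := by linarith
    have hYτ' : ‖Y - one3‖ < τ' := by
      rcases hn.eq_or_lt with h | h
      · rw [← h] at hY1
        linarith
      · linarith
    obtain ⟨hY2, hcomm, hstar⟩ := hSY Y hYτ
    have hYs : star3 Y = Y := by rw [hY, star3_mm, star3_Zf]
    have hZY : mm Z Y = mm Y Z := by rw [hY, mm_assoc]
    have hZS := hcomm Z hZY
    have hSs := hstar hYs
    have hYS := hcomm Y rfl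
    -- the matrix
    have hrho : rho S A = (1 / 2 : ℂ) • (one3 + mm Z (S Y)) := rfl
    have hidem : mm (rho S A) (rho S A) = rho S A := by
      rw [hrho]
      apply toM_inj
      have k1 : toM Z * toM (S Y) = toM (S Y) * toM Z := by rw [← toM_mm, ← toM_mm, hZS]
      have k2 : toM (S Y) * toM (S Y) * (toM Z * toM Z) = 1 := by
        rw [← toM_mm, ← toM_mm, ← toM_mm, hY2, toM_one]
      have k3 : (toM Z * toM (S Y)) * (toM Z * toM (S Y)) = 1 := by
        calc (toM Z * toM (S Y)) * (toM Z * toM (S Y))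
            = (toM (S Y) * toM Z) * (toM Z * toM (S Y)) := by rw [k1]
          _ = toM (S Y) * (toM Z * (toM Z * toM (S Y))) := by noncomm_ring
          _ = toM (S Y) * (toM Z * (toM (S Y) * toM Z)) := by rw [k1]
          _ = toM (S Y) * ((toM Z * toM (S Y)) * toM Z) := by noncomm_ring
          _ = toM (S Y) * ((toM (S Y) * toM Z) * toM Z) := by rw [k1]
          _ = toM (S Y) * toM (S Y) * (toM Z * toM Z) := by noncomm_ring
          _ = 1 := k2
      rw [toM_mm, toM_smul, toM_add, toM_mm, toM_one, smul_mul_smul_comm, add_mul, mul_add,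
        mul_add, k3, mul_one, one_mul, mul_one]
      ext i j
      simp only [Matrix.smul_apply, Matrix.add_apply, smul_eq_mul]
      ring
    have hherm : star3 (rho S A) = rho S A := by
      rw [hrho]
      have k : star3 (mm Z (S Y)) = mm Z (S Y) := by
        rw [star3_mm, hSs, star3_Zf, hZS]
      funext i j
      have k' := congrFun (congrFun k i) j
      simp only [star3] at k' ⊢
      simp only [Pi.smul_apply, Pi.add_apply, smul_eq_mul, star_mul', star_add]
      rw [k']
      have k2 : star (one3 j i) = one3 i j := by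
        unfold one3
        by_cases h : i = j
        · subst h; simp
        · simp [h, Ne.symm h]
      rw [k2]
      have k3 : star (1 / 2 : ℂ) = 1 / 2 := by
        simp
      rw [k3]
    -- the trace
    have hclose : ‖rho S A - P‖ ≤ 21 / 100 := by
      have e : rho S A - P = (1 / 2 : ℂ) • (mm (Z - Zf P) (S Y) + mm (Zf P) (S Y - one3)) := by
        rw [hrho, sub_mm, mm_sub, mm_one]
        have h1 : Zf P = P + P - one3 := by rw [Zf, ((mem_CP2 P).1 hP).1]
        rw [h1]
        funext i j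
        simp only [Pi.sub_apply, Pi.smul_apply, Pi.add_apply, smul_eq_mul]
        ring
      have hS' : ‖S Y - one3‖ ≤ 1 / 100 := (hτS Y hYτ').le
      have hSn : ‖S Y‖ ≤ 2 := by
        have : S Y = one3 + (S Y - one3) := by abel
        rw [this]
        refine (norm_add_le _ _).trans ?_
        linarith [norm_one3]
      rw [e, norm_smul]
      have h1 := norm_mm (Z - Zf P) (S Y)
      have h2 := norm_mm (Zf P) (S Y - one3)
      have h3 : 3 * ‖Z - Zf P‖ * ‖S Y‖ ≤ 3 * (2 * (1 / 100)) * 2 := by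
        have := norm_nonneg (Z - Zf P)
        have := norm_nonneg (S Y)
        have h5 : ‖Z - Zf P‖ ≤ 2 * (1 / 100) := by linarith
        gcongr
      have h4 : 3 * ‖Zf P‖ * ‖S Y - one3‖ ≤ 3 * 3 * (1 / 100) := by
        have := norm_nonneg (S Y - one3)
        gcongr
      have h6 := norm_add_le (mm (Z - Zf P) (S Y)) (mm (Zf P) (S Y - one3))
      have h7 : ‖(1 / 2 : ℂ)‖ = 1 / 2 := by norm_num
      rw [h7]
      linarith
    obtain ⟨n, hn'⟩ := trace_nat hidem
    have htr : ‖(∑ i, rho S A i i) - 1‖ < 1 := by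
      have h1 : (∑ i, rho S A i i) - 1 = ∑ i, (rho S A - P) i i := by
        have h3 := ((mem_CP2 P).1 hP).2.2
        simp only [Pi.sub_apply, Finset.sum_sub_distrib, h3]
      rw [h1]
      have h2 : ‖∑ i, (rho S A - P) i i‖ ≤ ∑ i : Fin 3, (21 / 100 : ℝ) :=
        norm_sum_le_of_le _ fun i _ => (norm_entry _ i i).trans hclose
      refine lt_of_le_of_lt h2 ?_
      rw [Finset.sum_const, Finset.card_univ, Fintype.card_fin, nsmul_eq_mul]
      norm_num
    rw [mem_CP2]
    refine ⟨hherm, hidem, ?_⟩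
    rw [hn'] at htr ⊢
    have h1 : ((n : ℂ) - 1) = (((n : ℝ) - 1 : ℝ) : ℂ) := by push_cast; ring
    rw [h1, Complex.norm_real, Real.norm_eq_abs, abs_lt] at htr
    have h2 : (n : ℝ) < 2 := by linarith
    have h3 : (0 : ℝ) < n := by linarith
    have h4 : n < 2 := by exact_mod_cast h2
    have h5 : 0 < n := by exact_mod_cast h3
    have h6 : n = 1 := by omega
    rw [h6]
    simp
  · intro P hP
    have h1 := (Zf_CP2 hP).1
    rw [rho, h1, hS1, mm_one]
    have h2 : Zf P = P + P - one3 := by rw [Zf, ((mem_CP2 P).1 hP).1]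
    rw [h2]
    funext i j
    simp only [Pi.smul_apply, Pi.add_apply, Pi.sub_apply, smul_eq_mul]
    ring

end H15

/-- Piece RET2. -/
theorem p_RET2 : P_RET2 := H15.p_RET2'

end Pool.Agent.W2helper44.CP
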